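import Pool.Agent.MP_ea150c_mp.H15.S1
import Pool.Agent.MP_ea150c_mp.H45.S1pShiftEx

/-! Signed monomial maps between toric rings, and simultaneous shifts. -/

set_option linter.unusedSectionVars false

namespace Pool.Agent.MP_ea150c_mp.H6

open Pool.Agent.MP_ea150c_mp.H49 Pool.Agent.MP_ea150c_mp.H15

noncomputable section

/-- Data of a signed monomial map. -/
structure MD {σ σ' : Type} (tor : σ → Bool) (tor' : σ' → Bool) where
  e : σ ≃ σ'
  a : σ
  d : σ
  δ : σ' → ℤ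
  ht : ∀ x, tor' (e x) = tor x
  ha : tor a = false
  hd : tor d = false
  had : a ≠ d
  hδ : ∀ y, tor' y = false → δ y = 0

namespace MD

variable {σ σ' : Type} {tor : σ → Bool} {tor' : σ' → Bool} (D : MD tor tor')

/-- The inverse data. -/
def symm : MD tor' tor where
  e := D.e.symm
  a := D.e D.a
  d := D.e D.d
  δ x := -D.δ (D.e x)
  ht y := by rw [← D.ht, D.e.apply_symm_apply]
  ha := by rw [D.ht, D.ha]
  hd := by rw [D.ht, D.hd]
  had := D.e.injective.ne D.had
  hδ x hx := by rw [D.hδ _ (by rw [D.ht, hx]), neg_zero]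

/-- The degree in the two marked variables. -/
def N (u : σ → ℤ) : ℤ := u D.a + u D.d

/-- The map on exponents. -/
def L (u : σ → ℤ) : σ' → ℤ := fun y => u (D.e.symm y) + D.N u * D.δ y

lemma δa : D.δ (D.e D.a) = 0 := D.hδ _ D.symm.ha

lemma δd : D.δ (D.e D.d) = 0 := D.hδ _ D.symm.hd

lemma L_e (u : σ → ℤ) (x : σ) : D.L u (D.e x) = u x + D.N u * D.δ (D.e x) := by simp [L]

lemma L_a (u : σ → ℤ) : D.L u (D.e D.a) = u D.a := by simp [L_e, δa]

lemma L_d (u : σ → ℤ) : D.L u (D.e D.d) = u D.d := by simp [L_e, δd]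

lemma N_add (u v : σ → ℤ) : D.N (u + v) = D.N u + D.N v := by simp only [N, Pi.add_apply]; ring

lemma L_add (u v : σ → ℤ) : D.L (u + v) = D.L u + D.L v := by
  funext y
  simp only [L, N_add, Pi.add_apply]
  ring

lemma L_mem {u : σ → ℤ} (h : u ∈ Mon tor) : D.L u ∈ Mon tor' := fun y hy => by
  rw [L, D.hδ y hy, mul_zero, add_zero]
  exact h _ (by rw [← D.ht, D.e.apply_symm_apply, hy])

lemma smul_mem (c : ℤ) : c • D.δ ∈ Mon tor' := fun y hy => by simp [D.hδ y hy]

lemma N_L (u : σ → ℤ) : D.symm.N (D.L u) = D.N u := by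
  change D.L u (D.e D.a) + D.L u (D.e D.d) = _
  rw [L_a, L_d, N]

lemma L_L (u : σ → ℤ) : D.symm.L (D.L u) = u := by
  funext x
  rw [L, N_L]
  change D.L u (D.e x) + D.N u * -D.δ (D.e x) = _
  rw [L_e]
  ring

lemma symm_symm : D.symm.symm = D := by
  cases D
  simp [symm]

variable (Λ : Type) [CommRing Λ]

/-- The sign. -/
def sg (n : ℤ) : Λ := ((n.negOnePow : ℤ) : Λ)

variable {Λ}

lemma sg_add (n m : ℤ) : sg Λ (n + m) = sg Λ n * sg Λ m := by simp [sg, Int.negOnePow_add]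

lemma sg_zero : sg Λ 0 = 1 := by simp [sg]

lemma sg_one : sg Λ 1 = -1 := by simp [sg]

lemma sg_sq (n : ℤ) : sg Λ n * sg Λ n = 1 := by
  rw [← sg_add, sg, Int.negOnePow_even _ ⟨n, rfl⟩]
  simp

lemma sg_odd {p : ℕ} (hp : Odd p) {n m : ℤ} (h : n + 2 = p * (m + 2)) : sg Λ n = sg Λ m := by
  obtain ⟨k, rfl⟩ := hp
  have : n.negOnePow = m.negOnePow := (Int.negOnePow_eq_iff _ _).2 ⟨k * (m + 2), by
    push_cast at h
    linear_combination h⟩
  rw [sg, this, sg]

variable (Λ)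

/-- The signed monomial map. -/
def hom : Tor Λ tor →ₐ[Λ] Tor Λ tor' :=
  AddMonoidAlgebra.lift Λ _ (Mon tor)
    { toFun := fun u => sg Λ (D.N (Multiplicative.toAdd u).1) •
        monoZ tor' Λ (D.L (Multiplicative.toAdd u).1)
      map_one' := by
        have h1 : D.N 0 = 0 := by simp [N]
        have h2 : D.L 0 = 0 := by funext y; simp [L, h1]
        change sg Λ (D.N 0) • monoZ tor' Λ (D.L 0) = 1
        rw [h1, h2, sg_zero, monoZ_zero, one_smul]
      map_mul' := fun u v => by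
        change sg Λ (D.N ((Multiplicative.toAdd u).1 + (Multiplicative.toAdd v).1)) •
          monoZ tor' Λ (D.L ((Multiplicative.toAdd u).1 + (Multiplicative.toAdd v).1)) = _
        rw [N_add, L_add, sg_add, smul_mul_smul_comm,
          monoZ_mul tor' (D.L_mem (Multiplicative.toAdd u).2) (D.L_mem (Multiplicative.toAdd v).2)] }

variable {Λ}

lemma hom_mono {u : σ → ℤ} (h : u ∈ Mon tor) :
    D.hom Λ (monoZ tor Λ u) = sg Λ (D.N u) • monoZ tor' Λ (D.L u) := by
  rw [monoZ_mem tor h, hom, AddMonoidAlgebra.lift_single, one_smul]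
  rfl

lemma hom_hom (z : Tor Λ tor) : D.symm.hom Λ (D.hom Λ z) = z := by
  induction z using mono_ind with
  | h0 => simp
  | hadd a b h1 h2 => rw [map_add, map_add, h1, h2]
  | hm c u hu =>
    rw [map_smul, map_smul, D.hom_mono hu, map_smul, D.symm.hom_mono (D.L_mem hu), N_L, L_L,
      smul_smul (sg Λ _), sg_sq, one_smul]

variable (Λ) in
/-- The signed monomial map as an isomorphism. -/
def equiv : Tor Λ tor ≃ₐ[Λ] Tor Λ tor' :=
  AlgEquiv.ofAlgHom (D.hom Λ) (D.symm.hom Λ)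
    (AlgHom.ext fun z => by have := D.symm.hom_hom z; rwa [symm_symm] at this)
    (AlgHom.ext D.hom_hom)

lemma equiv_apply (z : Tor Λ tor) : D.equiv Λ z = D.hom Λ z := rfl

variable [DecidableEq σ] [DecidableEq σ']

lemma L_single (x : σ) (c : ℤ) :
    D.L (Pi.single x c) = Pi.single (D.e x) c + D.N (Pi.single x c) • D.δ := by
  funext y
  obtain ⟨y, rfl⟩ := D.e.surjective y
  simp [L_e, Pi.single_apply]

lemma N_a : D.N (Pi.single D.a 1) = 1 := by simp [N, D.had.symm]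

lemma N_d : D.N (Pi.single D.d 1) = 1 := by simp [N, D.had]

lemma N_o {x : σ} (ha : x ≠ D.a) (hd : x ≠ D.d) (c : ℤ) : D.N (Pi.single x c) = 0 := by
  simp [N, ha.symm, hd.symm]

lemma hom_X {x : σ} (h : D.N (Pi.single x 1) = 1) :
    D.hom Λ (tX tor Λ x) = -(tX tor' Λ (D.e x) * monoZ tor' Λ D.δ) := by
  have k := D.smul_mem 1
  rw [one_smul] at k
  rw [tX, D.hom_mono (single_mem' tor x), L_single, h, sg_one, one_smul, neg_smul, one_smul, tX,
    monoZ_mul tor' (single_mem' tor' _) k]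

lemma hom_Xo {x : σ} (ha : x ≠ D.a) (hd : x ≠ D.d) : D.hom Λ (tX tor Λ x) = tX tor' Λ (D.e x) := by
  rw [tX, D.hom_mono (single_mem' tor x), L_single, D.N_o ha hd, sg_zero, one_smul, zero_smul,
    add_zero, tX]

lemma hom_phi {p : ℕ} (hp : Odd p) (z : Tor Λ tor) :
    D.hom Λ (phi0 tor Λ p z) = phi0 tor' Λ p (D.hom Λ z) := by
  induction z using mono_ind with
  | h0 => simp
  | hadd a b h1 h2 => simp only [map_add, h1, h2]
  | hm c u hu =>
    rw [map_smul, map_smul, map_smul, map_smul, phi0_mono tor p hu, ← monoZ_pow tor hu, map_pow,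
      D.hom_mono hu, map_smul, phi0_mono tor' p (D.L_mem hu), smul_pow, monoZ_pow tor' (D.L_mem hu)]
    obtain ⟨k, rfl⟩ := hp
    rw [pow_succ, pow_mul, pow_two, sg_sq, one_pow, one_mul]

lemma mu_mono {u : σ → ℤ} (h : u ∈ Mon tor) :
    monoZ tor' Λ ((2 : ℤ) • D.δ) * D.hom Λ (monoZ tor Λ u) =
      sg Λ (D.N u) • monoZ tor' Λ ((2 : ℤ) • D.δ + D.L u) := by
  rw [D.hom_mono h, mul_smul_comm, monoZ_mul tor' (D.smul_mem 2) (D.L_mem h)]

lemma mu_e (u : σ → ℤ) (x : σ) : ((2 : ℤ) • D.δ + D.L u) (D.e x) + 1 =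
    u x + 1 + (u D.a + 1 + (u D.d + 1)) * D.δ (D.e x) := by
  simp only [Pi.add_apply, Pi.smul_apply, smul_eq_mul, L_e, N]
  ring

lemma hom_psi {p : ℕ} (hp : Odd p) (z : Tor Λ tor) :
    monoZ tor' Λ ((2 : ℤ) • D.δ) * D.hom Λ (psi0 tor Λ p z) =
      psi0 tor' Λ p (monoZ tor' Λ ((2 : ℤ) • D.δ) * D.hom Λ z) := by
  have hp1 : 1 ≤ p := hp.pos
  have hp0 : (p : ℤ) ≠ 0 := by omega
  induction z using mono_ind with
  | h0 => simp
  | hadd a b h1 h2 => simp only [map_add, mul_add, h1, h2]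
  | hm c u hu =>
    rw [map_smul, map_smul, map_smul, mul_smul_comm, mul_smul_comm, map_smul, D.mu_mono hu,
      map_smul, psi0_mono tor p hu,
      psi0_mono tor' p ((Mon tor').add_mem (D.smul_mem 2) (D.L_mem hu))]
    congr 1
    by_cases h : ∀ i, (p : ℤ) ∣ u i + 1
    · have hw := quo_mem tor hp1 hu h
      have e : ∀ i, u i + 1 = p * ((fun i => (u i + 1) / p - 1) i + 1) := fun i => by
        simp only [sub_add_cancel]
        exact (Int.mul_ediv_cancel' (h i)).symm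
      generalize (fun i => (u i + 1) / p - 1) = w at hw e
      have e' : ∀ y, ((2 : ℤ) • D.δ + D.L u) y + 1 = p * (((2 : ℤ) • D.δ + D.L w) y + 1) := by
        intro y
        obtain ⟨y, rfl⟩ := D.e.surjective y
        rw [mu_e, mu_e, e, e, e]
        ring
      rw [if_pos h, if_pos fun y => ⟨_, e' y⟩, D.mu_mono hw, sg_odd hp (n := D.N u) (m := D.N w) (by
        unfold N
        linear_combination e D.a + e D.d)]
      congr 2
      funext y
      rw [e', Int.mul_ediv_cancel_left _ hp0, add_sub_cancel_right]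
    · rw [if_neg h, if_neg, map_zero, mul_zero, smul_zero]
      intro k
      have ka := k (D.e D.a)
      have kd := k (D.e D.d)
      rw [mu_e, δa, mul_zero, add_zero] at ka
      rw [mu_e, δd, mul_zero, add_zero] at kd
      refine h fun i => ?_
      have ki := k (D.e i)
      rw [mu_e] at ki
      exact (Int.dvd_add_left (Dvd.dvd.mul_right (dvd_add ka kd) _)).1 ki

lemma pd_marked {x : σ} (h : D.N (Pi.single x 1) = 1) (h0 : D.δ (D.e x) = 0) (z : Tor Λ tor) :
    D.hom Λ (pd tor Λ x z) = -monoZ tor' Λ ((-1 : ℤ) • D.δ) * pd tor' Λ (D.e x) (D.hom Λ z) := by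
  induction z using mono_ind with
  | h0 => simp
  | hadd a b h1 h2 => simp only [map_add, mul_add, h1, h2]
  | hm c u hu =>
    rw [map_smul, map_smul, map_smul, map_smul, mul_smul_comm, D.hom_mono hu, map_smul,
      pd_mono tor x hu, pd_mono tor' _ (D.L_mem hu), mul_smul_comm, neg_mul, mul_comm,
      dm_mul tor' _ (D.L_mem hu) (D.smul_mem _), L_e, h0, mul_zero, add_zero, map_smul]
    congr 1
    rcases sub_mem_or tor x hu with k | k
    · have e1 := D.N_add (u - Pi.single x 1) (Pi.single x 1)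
      have e2 := D.L_add (u - Pi.single x 1) (Pi.single x 1)
      rw [sub_add_cancel] at e1 e2
      rw [D.hom_mono k, e1, e2, h, L_single, h, sg_add, sg_one, smul_comm, mul_neg, mul_one,
        neg_smul, smul_neg, neg_neg]
      congr 3
      module
    · simp [k]

lemma euler (c : Λ) (y : σ') {v w : σ' → ℤ} (hv : v ∈ Mon tor')
    (hw : c = 0 ∨ Pi.single y 1 - w ∈ Mon tor') :
    (c • monoZ tor' Λ (Pi.single y 1 - w)) * pd tor' Λ y (monoZ tor' Λ v) =
      (c * v y) • monoZ tor' Λ (v - w) := by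
  rcases hw with rfl | hw
  · simp
  · rw [pd_mono tor' y hv, smul_mul_assoc, mul_comm, dm_mul tor' y hv hw, smul_smul]
    congr 2
    abel

lemma sub_mem (x y : σ') : ((-D.δ x : ℤ) : Λ) = 0 ∨ Pi.single y 1 - Pi.single x 1 ∈ Mon tor' := by
  cases h : tor' x
  · exact Or.inl (by simp [D.hδ x h])
  · refine Or.inr fun l hl => ?_
    have : l ≠ x := fun e => by rw [e, h] at hl; exact Bool.noConfusion hl
    simpa [this] using single_mem' tor' y l hl

variable (Λ) in
/-- The correction term. -/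
def cor (x y : σ') : Tor Λ tor' :=
  ((-D.δ x : ℤ) : Λ) • monoZ tor' Λ (Pi.single y 1 - Pi.single x 1)

lemma pd_other {x : σ} (ha : x ≠ D.a) (hd : x ≠ D.d) (z : Tor Λ tor) :
    D.hom Λ (pd tor Λ x z) = pd tor' Λ (D.e x) (D.hom Λ z) +
      D.cor Λ (D.e x) (D.e D.a) * pd tor' Λ (D.e D.a) (D.hom Λ z) +
      D.cor Λ (D.e x) (D.e D.d) * pd tor' Λ (D.e D.d) (D.hom Λ z) := by
  induction z using mono_ind with
  | h0 => simp
  | hadd a b h1 h2 => simp only [map_add, mul_add, h1, h2]; ring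
  | hm c u hu =>
    have k0 : D.hom Λ (pd tor Λ x (monoZ tor Λ u)) =
        sg Λ (D.N u) • (u x : Λ) • monoZ tor' Λ (D.L u - Pi.single (D.e x) 1) := by
      rw [pd_mono tor x hu, map_smul]
      rcases sub_mem_or tor x hu with k | k
      · have e1 := D.N_add (u - Pi.single x 1) (Pi.single x 1)
        have e2 := D.L_add (u - Pi.single x 1) (Pi.single x 1)
        rw [sub_add_cancel] at e1 e2
        rw [D.hom_mono k, e1, e2, L_single, D.N_o ha hd, zero_smul, add_zero, add_zero,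
          add_sub_cancel_right, smul_comm]
      · simp [k]
    simp only [map_smul, mul_smul_comm, k0, D.hom_mono hu, cor]
    rw [euler _ _ (D.L_mem hu) (D.sub_mem _ _), euler _ _ (D.L_mem hu) (D.sub_mem _ _),
      pd_mono tor' _ (D.L_mem hu), L_a, L_d, L_e, N]
    push_cast
    module

lemma div_other {x : σ} (ha : x ≠ D.a) (hd : x ≠ D.d) :
    pd tor' Λ (D.e x) (monoZ tor' Λ ((2 : ℤ) • D.δ)) +
      pd tor' Λ (D.e D.a) (D.cor Λ (D.e x) (D.e D.a) * monoZ tor' Λ ((2 : ℤ) • D.δ)) +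
      pd tor' Λ (D.e D.d) (D.cor Λ (D.e x) (D.e D.d) * monoZ tor' Λ ((2 : ℤ) • D.δ)) = 0 := by
  have k : ∀ y, D.δ y = 0 → y ≠ D.e x →
      pd tor' Λ y (D.cor Λ (D.e x) y * monoZ tor' Λ ((2 : ℤ) • D.δ)) =
        ((-D.δ (D.e x) : ℤ) : Λ) • monoZ tor' Λ ((2 : ℤ) • D.δ - Pi.single (D.e x) 1) := by
    intro y h0 hy
    rcases D.sub_mem (Λ := Λ) (D.e x) y with h | h
    · rw [cor, h]; simp
    · rw [cor, smul_mul_assoc, monoZ_mul tor' h (D.smul_mem 2), map_smul,
        pd_mono tor' y ((Mon tor').add_mem h (D.smul_mem 2))]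
      have : (Pi.single y 1 - Pi.single (D.e x) 1 + (2 : ℤ) • D.δ : σ' → ℤ) y = 1 := by
        simp [h0, hy]
      rw [this, Int.cast_one, one_smul]
      congr 2
      abel
  rw [k _ D.δa (D.e.injective.ne ha.symm), k _ D.δd (D.e.injective.ne hd.symm),
    pd_mono tor' _ (D.smul_mem 2), Pi.smul_apply, smul_eq_mul]
  push_cast
  module

variable [Fintype σ'] {I Γ : Type} [AddCommGroup Γ] {cv : I → σ'} {wt : σ → Γ} {wt' : σ' → Γ}
  {J : Finset I}

lemma sum_single (r : Tor Λ tor') (y : σ') (f : σ' → Tor Λ tor' → Tor Λ tor')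
    (h : ∀ y, f y 0 = 0) : ∑ l, f l ((Pi.single y r : σ' → Tor Λ tor') l) = f y r := by
  rw [Finset.sum_eq_single y (fun l _ hl => by rw [Pi.single_eq_of_ne hl, h]) (by simp),
    Pi.single_eq_same]

lemma single_Tp (r : Tor Λ tor') (y : σ') (w : Γ) (h : r ∈ Tp tor' cv wt' Λ J (wt' y - w))
    (l : σ') : (Pi.single y r : σ' → Tor Λ tor') l ∈ Tp tor' cv wt' Λ J (wt' l - w) := by
  by_cases k : l = y
  · rwa [k, Pi.single_eq_same]
  · rw [Pi.single_eq_of_ne k]
    exact Submodule.zero_mem _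

theorem hom_pd (hJ : ∀ v, v ∉ J → D.δ (cv v) = 0)
    (hw : ∀ x, wt x = wt' (D.e x) + D.N (Pi.single x 1) • ∑ y, D.δ y • wt' y) (x : σ) :
    ∃ r : σ' → Tor Λ tor', (∀ y, r y ∈ Tp tor' cv wt' Λ J (wt' y - wt x)) ∧
      (∀ z, D.hom Λ (pd tor Λ x z) = ∑ y, r y * pd tor' Λ y (D.hom Λ z)) ∧
      ∀ z, monoZ tor' Λ ((2 : ℤ) • D.δ) * D.hom Λ (pd tor Λ x z) =
        ∑ y, pd tor' Λ y (r y * (monoZ tor' Λ ((2 : ℤ) • D.δ) * D.hom Λ z)) := by
  have key : ∀ r : σ' → Tor Λ tor',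
      (∀ z, D.hom Λ (pd tor Λ x z) = ∑ y, r y * pd tor' Λ y (D.hom Λ z)) →
      ∑ y, pd tor' Λ y (r y * monoZ tor' Λ ((2 : ℤ) • D.δ)) = 0 →
      ∀ z, monoZ tor' Λ ((2 : ℤ) • D.δ) * D.hom Λ (pd tor Λ x z) =
        ∑ y, pd tor' Λ y (r y * (monoZ tor' Λ ((2 : ℤ) • D.δ) * D.hom Λ z)) := by
    intro r h1 h2 z
    simp only [← mul_assoc, leibniz tor' _ (_ * _) (D.hom Λ z)]
    rw [Finset.sum_add_distrib, ← Finset.sum_mul, h2, zero_mul, zero_add, h1, Finset.mul_sum]
    exact Finset.sum_congr rfl fun y _ => by ring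
  by_cases hx : x = D.a ∨ x = D.d
  · have h1 : D.N (Pi.single x 1) = 1 := by
      rcases hx with rfl | rfl
      exacts [D.N_a, D.N_d]
    have h0 : D.δ (D.e x) = 0 := by
      rcases hx with rfl | rfl
      exacts [D.δa, D.δd]
    have h2 : ∀ z, D.hom Λ (pd tor Λ x z) = ∑ y, (Pi.single (D.e x)
        (-monoZ tor' Λ ((-1 : ℤ) • D.δ)) : σ' → Tor Λ tor') y * pd tor' Λ y (D.hom Λ z) :=
      fun z => by
        rw [sum_single _ _ (fun y r => r * pd tor' Λ y (D.hom Λ z)) (by simp), D.pd_marked h1 h0]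
    refine ⟨_, single_Tp _ _ _ (Submodule.neg_mem _ (monoZ_supp tor' fun _ =>
      ⟨fun v hv => by simp [hJ v hv], ?_⟩)), h2, key _ h2 ?_⟩
    · rw [hw x, h1]
      simp
    · rw [sum_single _ _ (fun y r => pd tor' Λ y (r * monoZ tor' Λ ((2 : ℤ) • D.δ))) (by simp),
        neg_mul, monoZ_mul tor' (D.smul_mem _) (D.smul_mem _), map_neg,
        pd_mono tor' _ ((Mon tor').add_mem (D.smul_mem _) (D.smul_mem _))]
      simp [h0]
  · obtain ⟨ha, hd⟩ := not_or.1 hx
    have hwx : wt x = wt' (D.e x) := by rw [hw x, D.N_o ha hd, zero_smul, add_zero]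
    have hc : ∀ y, D.cor Λ (D.e x) y ∈ Tp tor' cv wt' Λ J (wt' y - wt x) := fun y => by
      by_cases k : D.δ (D.e x) = 0
      · rw [cor, k]; simp
      · refine Submodule.smul_mem _ _ (monoZ_supp tor' fun _ => ⟨fun v hv => ?_, ?_⟩)
        · have : cv v ≠ D.e x := fun e => k (e ▸ hJ v hv)
          by_cases k' : cv v = y
          · subst k'; simp [this]
          · simp [this, k']
        · simp only [Pi.sub_apply, sub_smul, Finset.sum_sub_distrib, wt_single, hwx]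
    have h2 : ∀ z, D.hom Λ (pd tor Λ x z) = ∑ y, (Pi.single (D.e x) 1 +
        Pi.single (D.e D.a) (D.cor Λ (D.e x) (D.e D.a)) +
        Pi.single (D.e D.d) (D.cor Λ (D.e x) (D.e D.d)) : σ' → Tor Λ tor') y *
          pd tor' Λ y (D.hom Λ z) := fun z => by
      have s := fun r y => sum_single r y (fun y r => r * pd tor' Λ y (D.hom Λ z)) (by simp)
      simp only [Pi.add_apply, add_mul, Finset.sum_add_distrib, s, one_mul]
      exact D.pd_other ha hd z
    refine ⟨_, fun y => Submodule.add_mem _ (Submodule.add_mem _ (single_Tp _ _ _ ?_ y)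
      (single_Tp _ _ _ (hc _) y)) (single_Tp _ _ _ (hc _) y), h2, key _ h2 ?_⟩
    · rw [hwx, sub_self]
      exact one_Tp tor' cv wt' J
    · have s := fun r y => sum_single r y
        (fun y r => pd tor' Λ y (r * monoZ tor' Λ ((2 : ℤ) • D.δ))) (by simp)
      simp only [add_mul, map_add, Finset.sum_add_distrib, s, one_mul]
      exact D.div_other ha hd

end MD

/-- Simultaneous shifts of a set of variables by elements free of these variables. -/
theorem tri_set (sx : ShiftEx) {σ I Γ : Type} [Fintype σ] [DecidableEq σ] [AddCommGroup Γ]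
    {tor : σ → Bool} {cv : I → σ} {wt : σ → Γ} {p : ℕ} [Fact p.Prime] {J : Finset I}
    (g : σ → Tor ℤ_[p] tor) (F : Finset σ) (h1 : ∀ i ∈ F, tor i = false)
    (h2 : ∀ i ∈ F, g i ∈ Tp tor cv wt ℤ_[p] J (wt i))
    (h3 : ∀ i ∈ F, ∀ l ∈ F, g i ∈ supp tor ℤ_[p] fun u => u l = 0) :
    ∀ τ, IsTri tor cv wt p J τ → ∃ S : Tor ℤ_[p] tor ≃ₐ[ℤ_[p]] Tor ℤ_[p] tor,
      IsTri tor cv wt p J (S.trans τ) ∧
      ∀ l, S (tX tor ℤ_[p] l) = tX tor ℤ_[p] l + if l ∈ F then g l else 0 := by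
  induction F using Finset.induction_on with
  | empty => exact fun τ h => ⟨AlgEquiv.refl, h, fun l => by simp⟩
  | insert i F hi ih =>
    intro τ hτ
    have m0 := Finset.mem_insert_self i F
    have m1 := fun l (h : l ∈ F) => Finset.mem_insert_of_mem (b := i) h
    obtain ⟨s, s1, s2⟩ := (sx _ _ tor i (g i) (h1 i m0) (h3 i m0 i m0)).1
    obtain ⟨S, k1, k2⟩ := ih (fun l h => h1 l (m1 l h)) (fun l h => h2 l (m1 l h))
      (fun l h l' h' => h3 l (m1 l h) l' (m1 l' h')) _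
      (IsTri.step τ s i (g i) hτ (h1 i m0) (h2 i m0) (h3 i m0 i m0) s1 s2)
    refine ⟨S.trans s, k1, fun l => ?_⟩
    rw [AlgEquiv.trans_apply, k2, map_add]
    by_cases hl : l = i
    · subst hl
      rw [s1, if_neg hi, if_pos m0, map_zero, add_zero]
    · rw [s2 l hl]
      by_cases hF : l ∈ F
      · rw [if_pos hF, if_pos (m1 l hF)]
        exact congrArg _ (H45.fix_free (s := s.toAlgHom) (h1 i m0) s2 (h3 l (m1 l hF) i m0))
      · rw [if_neg hF, if_neg (by simp [hl, hF]), map_zero]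

end

end Pool.Agent.MP_ea150c_mp.H6
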