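import Pool.Agent.MP_ea150c_mp.H49.SpecG
import Pool.Agent.MP_ea150c_mp.H6.G3aM

/-! The transition map between two charts. -/

set_option linter.unusedSectionVars false

namespace Pool.Agent.MP_ea150c_mp.H6

open Pool.Agent.MP_ea150c_mp.H49 Pool.Agent.MP_ea150c_mp.H15

noncomputable section

variable {I τ ι : Type} [LinearOrder I] [Fintype I] [Fintype τ] [DecidableEq τ] {j k : I}

/-- Exchange `a_j, d_j` with `a_k, d_k`. -/
def sw (j k : I) : Var I τ → Var I τ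
  | Sum.inl (v, t) => if t = 1 ∨ t = 2 then Sum.inl (Equiv.swap j k v, t) else Sum.inl (v, t)
  | Sum.inr t => Sum.inr t

lemma sw_sw (x : Var I τ) : sw j k (sw j k x) = x := by
  rcases x with ⟨v, t⟩ | t
  · by_cases h : t = 1 ∨ t = 2 <;> simp [sw, h]
  · rfl

lemma torV_sw (x : Var I τ) : torV (sw j k x) = torV x := by
  rcases x with ⟨v, t⟩ | t
  · by_cases h : t = 1 ∨ t = 2 <;> simp [sw, h, torV]
  · rfl

variable (τ j k) in
/-- The bijection between the variables of two slices. -/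
def eS : Sl τ j ≃ Sl τ k :=
  (Function.Involutive.toPerm (sw j k) sw_sw).subtypeEquiv fun x => by
    have h1 : (Sum.inl (k, 1) : Var I τ) = Function.Involutive.toPerm (sw j k) sw_sw
      (Sum.inl (j, 1)) := by simp [sw]
    have h2 : (Sum.inl (k, 2) : Var I τ) = Function.Involutive.toPerm (sw j k) sw_sw
      (Sum.inl (j, 2)) := by simp [sw]
    rw [h1, h2, Ne, Ne, Ne, Ne, Equiv.apply_eq_iff_eq, Equiv.apply_eq_iff_eq]

lemma eS_val (x : Sl τ j) : (eS τ j k x).1 = sw j k x.1 := rfl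

variable (τ) in
/-- The data of the monomial part of the transition map. -/
def mD (h : j ≠ k) : MD (torS τ j) (torS τ k) where
  e := eS τ j k
  a := ⟨Sum.inl (k, 1), by simp [h.symm], by simp⟩
  d := ⟨Sum.inl (k, 2), by simp, by simp [h.symm]⟩
  δ := Pi.single (cvS τ k k) 1 + Pi.single (cvS τ k j) (-1)
  ht x := torV_sw x.1
  ha := by simp [torS, torV]
  hd := by simp [torS, torV]
  had := by simp
  hδ y hy := by
    have : ∀ v, y ≠ cvS τ k v := fun v e => by simp [e, torS, torV, cvS] at hy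
    simp [this]

lemma tor_cv (j v : I) : torS τ j (cvS τ j v) = true := by simp [torS, torV, cvS]

lemma cv_inj {u v : I} : cvS τ j u = cvS τ j v ↔ u = v := by simp [cvS]

variable {Λ : Type} [CommRing Λ]

lemma mono_δ (h : j ≠ k) : monoZ (torS τ k) Λ (mD τ h).δ =
    tX _ Λ (cvS τ k k) * tXi _ Λ (cvS τ k j) :=
  (monoZ_mul _ (single_mem _ _) (single_neg_mem _ _ (tor_cv k j))).symm

lemma hom_ci (h : j ≠ k) : (mD τ h).hom Λ (tXi _ Λ (cS τ j)) = tXi _ Λ (cvS τ k j) := by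
  rw [tXi, MD.hom_mono _ (single_neg_mem _ (cS τ j) (tor_cv j j)), MD.L_single,
    MD.N_o _ (by simp [mD, cS]) (by simp [mD, cS]), MD.sg_zero, one_smul, zero_smul, add_zero]
  rfl

lemma mu_eq (h : j ≠ k) (z : Tor Λ (torS τ j)) :
    tX _ Λ (cS τ k) ^ 2 * (mD τ h).equiv Λ (tXi _ Λ (cS τ j) ^ 2 * z) =
      monoZ _ Λ ((2 : ℤ) • (mD τ h).δ) * (mD τ h).hom Λ z := by
  have k1 := (mD τ h).smul_mem 1
  rw [one_smul] at k1
  have : monoZ (torS τ k) Λ ((2 : ℤ) • (mD τ h).δ) = monoZ (torS τ k) Λ (mD τ h).δ ^ 2 := by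
    rw [monoZ_pow _ k1]
    rfl
  rw [MD.equiv_apply, map_mul, map_pow, hom_ci, this, mono_δ, mul_pow, mul_assoc]
  rfl

lemma wt_eqS (M : Model I τ ι) (h : j ≠ k) (x : Sl τ j) : M.wtv x.1 = M.wtv ((mD τ h).e x).1 +
    (mD τ h).N (Pi.single x 1) • ∑ y, (mD τ h).δ y • M.wtv y.1 := by
  have e : ∑ y, (mD τ h).δ y • M.wtv y.1 = M.wtv (Sum.inl (k, 0)) - M.wtv (Sum.inl (j, 0)) := by
    have : (mD τ h).δ = Pi.single (cvS τ k k) 1 - Pi.single (cvS τ k j) 1 := by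
      rw [sub_eq_add_neg, ← Pi.single_neg]
      rfl
    simp only [this, Pi.sub_apply, sub_smul, Finset.sum_sub_distrib,
      wt_single (fun y : Sl τ k => M.wtv y.1)]
    rfl
  rw [e]
  by_cases ha : x = (mD τ h).a
  · rw [ha, MD.N_a]
    simp [mD, eS_val, sw, Model.wtv]
  by_cases hd : x = (mD τ h).d
  · rw [hd, MD.N_d]
    simp [mD, eS_val, sw, Model.wtv]
  rw [MD.N_o _ ha hd, zero_smul, add_zero]
  obtain ⟨⟨v, t⟩ | t, h1, h2⟩ := x
  · change _ = M.wtv (sw j k (Sum.inl (v, t)))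
    by_cases ht : t = 1 ∨ t = 2
    · have : v ≠ j ∧ v ≠ k := by
        rcases ht with rfl | rfl
        · exact ⟨by simpa using h1, by simpa [mD] using ha⟩
        · exact ⟨by simpa using h2, by simpa [mD] using hd⟩
      simp only [sw, if_pos ht, Equiv.swap_apply_of_ne_of_ne this.1 this.2]
    · simp only [sw, if_neg ht]
  · rfl

variable (Λ) in
/-- The variables restricted to the slice. -/
def xS (k : I) (x : Var I τ) : Tor Λ (torS τ k) := rhoZ Λ τ k (tX torV Λ x)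

lemma xS_of {x : Var I τ} (h : x ≠ Sum.inl (k, 1) ∧ x ≠ Sum.inl (k, 2)) :
    xS Λ k x = tX _ Λ ⟨x, h⟩ := (tlift_tX _ _ _ _ _).trans (dif_pos h)

lemma xS_val (y : Sl τ k) : xS Λ k y.1 = tX _ Λ y := xS_of y.2

lemma xS_not {x : Var I τ} (h : ¬ (x ≠ Sum.inl (k, 1) ∧ x ≠ Sum.inl (k, 2))) : xS Λ k x = 0 :=
  (tlift_tX _ _ _ _ _).trans (dif_neg h)

lemma rho_ci (v : I) : rhoZ Λ τ k (tXi torV Λ (Sum.inl (v, 0))) = tXi _ Λ (cvS τ k v) :=
  (tlift_tXi _ _ _ _ _ (by simp [torV])).trans (dif_pos (cvS τ k v).2)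

variable (Λ τ j k) in
/-- The transition map on the variables. -/
def thS : Var I τ → Tor Λ (torS τ k) :=
  gshift (xS Λ k (Sum.inl (j, 2)) * tXi _ Λ (cvS τ k j))
    (xS Λ k (Sum.inl (j, 1)) * tXi _ Λ (cvS τ k j)) (xS Λ k)

lemma rho_kap (x : Sl τ j) : rhoA Λ τ k (kapS Λ τ j (tX _ Λ x)) = thS τ j k Λ x.1 := by
  change rhoZ Λ τ k (sj Λ τ j (inS Λ τ j (tX _ Λ x))) = _
  rw [inS, tlift_tX, sj_tX]
  have := map_gshift (rhoZ Λ τ k : Zr Λ I τ →+* Tor Λ (torS τ k)) (nZ Λ τ j) (nZ' Λ τ j)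
    (tX torV Λ) x.1
  simp only [RingHom.coe_coe, nZ, nZ', map_mul, rho_ci] at this
  exact this

variable (Λ) in
/-- Elements of a given weight that are free of the variables in `F`. -/
def QF (M : Model I τ ι) (j k : I) (F : Finset (Sl τ k)) (w : Gam I) :
    Submodule Λ (Tor Λ (torS τ k)) :=
  Tp (torS τ k) (cvS τ k) (fun y => M.wtv y.1) Λ {j, k} w ⊓
    supp _ Λ fun u => ∀ l ∈ F, u l = 0

variable {M : Model I τ ι} {F : Finset (Sl τ k)}

lemma QF_mul {w w' w'' : Gam I} {a b : Tor Λ (torS τ k)} (ha : a ∈ QF Λ M j k F w)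
    (hb : b ∈ QF Λ M j k F w') (e : w'' = w + w') : a * b ∈ QF Λ M j k F w'' :=
  ⟨e ▸ mul_Tp _ _ _ _ _ _ _ _ ha.1 hb.1, H45.supp_mul
    (fun u v hu hv l hl => by rw [Pi.add_apply, hu l hl, hv l hl, add_zero]) ha.2 hb.2⟩

lemma QF_x {x : Var I τ} (h : ∀ y ∈ F, y.1 ≠ x) : xS Λ k x ∈ QF Λ M j k F (M.wtv x) := by
  by_cases hx : x ≠ Sum.inl (k, 1) ∧ x ≠ Sum.inl (k, 2)
  · rw [xS_of hx]
    refine ⟨tX_Tp _ _ (fun y : Sl τ k => M.wtv y.1) _ ⟨x, hx⟩, monoZ_supp _ fun _ l hl => ?_⟩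
    exact Pi.single_eq_of_ne (fun e => h l hl (congrArg Subtype.val e)) _
  · rw [xS_not hx]
    exact Submodule.zero_mem _

lemma QF_ci (h : ∀ y ∈ F, y.1 ≠ Sum.inl (j, 0)) :
    tXi _ Λ (cvS τ k j) ∈ QF Λ M j k F (-M.wtv (Sum.inl (j, 0))) := by
  refine ⟨monoZ_supp _ fun _ => ⟨fun v hv => ?_, ?_⟩, monoZ_supp _ fun _ l hl => ?_⟩
  · rw [Pi.single_eq_of_ne]
    intro e
    exact hv (by simp [cv_inj.1 e])
  · simp only [Pi.single_neg, Pi.neg_apply, neg_smul, Finset.sum_neg_distrib,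
      wt_single (fun y : Sl τ k => M.wtv y.1)]
    rfl
  · exact Pi.single_eq_of_ne (fun e => h l hl (congrArg Subtype.val e)) _

lemma QF_n (h0 : ∀ y ∈ F, y.1 ≠ Sum.inl (j, 0)) (h2 : ∀ y ∈ F, y.1 ≠ Sum.inl (j, 2)) :
    xS Λ k (Sum.inl (j, 2)) * tXi _ Λ (cvS τ k j) ∈ QF Λ M j k F (0, 0, 2, 0) :=
  QF_mul (QF_x h2) (QF_ci h0) (by simp [Model.wtv])

lemma QF_n' (h0 : ∀ y ∈ F, y.1 ≠ Sum.inl (j, 0)) (h1 : ∀ y ∈ F, y.1 ≠ Sum.inl (j, 1)) :
    xS Λ k (Sum.inl (j, 1)) * tXi _ Λ (cvS τ k j) ∈ QF Λ M j k F (0, 0, 0, 2) :=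
  QF_mul (QF_x h1) (QF_ci h0) (by simp [Model.wtv])

open Classical in
variable (τ k) in
/-- The variables `b_v`. -/
def Fb : Finset (Sl τ k) := Finset.univ.filter fun y => ∃ v, y.1 = Sum.inl (v, 3)

open Classical in
variable (τ j k) in
/-- The variables `a_v, d_v` for `v` different from `j`. -/
def Fa : Finset (Sl τ k) :=
  Finset.univ.filter fun y => ∃ v, v ≠ j ∧ (y.1 = Sum.inl (v, 1) ∨ y.1 = Sum.inl (v, 2))

lemma mem_Fb {y : Sl τ k} : y ∈ Fb τ k ↔ ∃ v, y.1 = Sum.inl (v, 3) := by simp [Fb]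

lemma mem_Fa {y : Sl τ k} :
    y ∈ Fa τ j k ↔ ∃ v, v ≠ j ∧ (y.1 = Sum.inl (v, 1) ∨ y.1 = Sum.inl (v, 2)) := by simp [Fa]

lemma gb_mem {y : Sl τ k} (hy : y ∈ Fb τ k) :
    thS τ j k Λ y.1 - xS Λ k y.1 ∈ QF Λ M j k (Fb τ k) (M.wtv y.1) := by
  obtain ⟨v, hv⟩ := mem_Fb.1 hy
  have f : ∀ (u : I) (t : Fin 4), t ≠ 3 → ∀ y ∈ Fb τ k, y.1 ≠ Sum.inl (u, t) := by
    intro u t ht y hy e
    obtain ⟨v, hv⟩ := mem_Fb.1 hy
    rw [hv] at e
    simp [ht.symm] at e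
  have n := QF_n (Λ := Λ) (M := M) (f j 0 (by decide)) (f j 2 (by decide))
  have n' := QF_n' (Λ := Λ) (M := M) (f j 0 (by decide)) (f j 1 (by decide))
  have := Submodule.sub_mem _ (Submodule.add_mem _
    (QF_mul (w'' := M.wtv (Sum.inl (v, 3))) n (QF_x (f v 1 (by decide))) (by simp [Model.wtv]))
    (QF_mul n' (QF_x (f v 2 (by decide))) (by simp [Model.wtv])))
    (QF_mul (QF_mul n n' rfl) (QF_x (f v 0 (by decide))) (by simp [Model.wtv]))
  rw [hv]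
  convert this using 1
  simp only [thS, gshift, Fin.reduceEq, if_false]
  ring

lemma ga_mem {F : Finset (Sl τ k)} (h0 : ∀ v, ∀ y ∈ F, y.1 ≠ Sum.inl (v, 0))
    (h1 : ∀ y ∈ F, y.1 ≠ Sum.inl (j, 1)) (h2 : ∀ y ∈ F, y.1 ≠ Sum.inl (j, 2))
    {y : Sl τ k} (hy : y ∈ Fa τ j k) :
    thS τ j k Λ y.1 - xS Λ k y.1 ∈ QF Λ M j k F (M.wtv y.1) := by
  have n := QF_n (Λ := Λ) (M := M) (h0 j) h2
  have n' := QF_n' (Λ := Λ) (M := M) (h0 j) h1
  obtain ⟨v, -, hv | hv⟩ := mem_Fa.1 hy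
  · have := Submodule.neg_mem _
      (QF_mul (w'' := M.wtv (Sum.inl (v, 1))) n' (QF_x (h0 v)) (by simp [Model.wtv]))
    rw [hv]
    convert this using 1
    simp only [thS, gshift, Fin.reduceEq, if_false, if_true]
    ring
  · have := Submodule.neg_mem _
      (QF_mul (w'' := M.wtv (Sum.inl (v, 2))) n (QF_x (h0 v)) (by simp [Model.wtv]))
    rw [hv]
    convert this using 1
    simp only [thS, gshift, Fin.reduceEq, if_false, if_true]
    ring

lemma QF_free {w : Gam I} {a : Tor Λ (torS τ k)} (h : a ∈ QF Λ M j k F w) {l : Sl τ k}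
    (hl : l ∈ F) : a ∈ supp (torS τ k) Λ fun u => u l = 0 := fun u hu => h.2 u hu l hl

/-- The triangular part. -/
lemma exists_s (sx : ShiftEx) (M : Model I τ ι) (p : ℕ) [Fact p.Prime] (j k : I) :
    ∃ s : Tor ℤ_[p] (torS τ k) ≃ₐ[ℤ_[p]] Tor ℤ_[p] (torS τ k),
      IsTri (torS τ k) (cvS τ k) (fun y => M.wtv y.1) p {j, k} s ∧
      ∀ y, s (tX _ ℤ_[p] y) =
        if y ∈ Fa τ j k ∨ y ∈ Fb τ k then thS τ j k ℤ_[p] y.1 else tX _ ℤ_[p] y := by
  have a0 : ∀ v, ∀ y ∈ Fa τ j k, y.1 ≠ Sum.inl (v, 0) := fun v y hy e => by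
    obtain ⟨u, -, h | h⟩ := mem_Fa.1 hy <;> simp [h] at e
  have a1 : ∀ t, ∀ y ∈ Fa τ j k, y.1 ≠ Sum.inl (j, t) := fun t y hy e => by
    obtain ⟨u, hu, h | h⟩ := mem_Fa.1 hy <;> simp [h, hu] at e
  obtain ⟨Sb, b1, b2⟩ := tri_set sx (fun y => thS τ j k ℤ_[p] y.1 - xS ℤ_[p] k y.1) (Fb τ k)
    (fun y hy => by obtain ⟨v, hv⟩ := mem_Fb.1 hy; simp [torS, hv, torV])
    (fun y hy => (gb_mem (M := M) hy).1) (fun y hy l hl => QF_free (gb_mem (M := M) hy) hl) _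
    IsTri.refl
  obtain ⟨Sa, c1, c2⟩ := tri_set sx (fun y => thS τ j k ℤ_[p] y.1 - xS ℤ_[p] k y.1) (Fa τ j k)
    (fun y hy => by obtain ⟨v, -, hv | hv⟩ := mem_Fa.1 hy <;> simp [torS, hv, torV])
    (fun y hy => (ga_mem (M := M) a0 (a1 1) (a1 2) hy).1)
    (fun y hy l hl => QF_free (ga_mem (M := M) a0 (a1 1) (a1 2) hy) hl) _ b1
  refine ⟨_, c1, fun y => ?_⟩
  change Sb (Sa _) = _
  have fx : ∀ x : Var I τ, (∀ v, x ≠ Sum.inl (v, 3)) → Sb (xS ℤ_[p] k x) = xS ℤ_[p] k x := by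
    intro x hx
    by_cases h : x ≠ Sum.inl (k, 1) ∧ x ≠ Sum.inl (k, 2)
    · rw [xS_of h, b2, if_neg (by simpa [mem_Fb] using hx), add_zero]
    · rw [xS_not h, map_zero]
  have fi : Sb (tXi _ ℤ_[p] (cvS τ k j)) = tXi _ ℤ_[p] (cvS τ k j) := by
    have e1 := tX_mul_tXi (Λ := ℤ_[p]) _ _ (tor_cv (τ := τ) k j)
    have e2 := congrArg Sb e1
    rw [map_mul, map_one, ← xS_val, fx _ (by simp [cvS]), xS_val] at e2
    linear_combination tXi _ ℤ_[p] (cvS τ k j) * e2 - Sb (tXi _ ℤ_[p] (cvS τ k j)) * e1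
  rw [c2]
  by_cases ha : y ∈ Fa τ j k
  · rw [if_pos ha, if_pos (Or.inl ha), xS_val, add_sub_cancel]
    obtain ⟨v, -, hv | hv⟩ := mem_Fa.1 ha <;>
      simp [hv, thS, gshift, fx, fi]
  · rw [if_neg ha, add_zero, b2]
    by_cases hb : y ∈ Fb τ k
    · rw [if_pos hb, if_pos (Or.inr hb), xS_val, add_sub_cancel]
    · rw [if_neg hb, if_neg (by tauto), add_zero]

theorem g3a (sx : ShiftEx) : G3a := by
  intro I τ ι _ _ _ _ _ _ M _ p _ hp j k h
  have hodd : Odd p := (Fact.out : p.Prime).odd_of_ne_two (by omega)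
  obtain ⟨s, s1, s2⟩ := exists_s sx M p j k
  have sc : ∀ v, s (tX _ ℤ_[p] (cvS τ k v)) = tX _ ℤ_[p] (cvS τ k v) := fun v => by
    rw [s2, if_neg (by simp [mem_Fa, mem_Fb, cvS])]
  have si : s (tXi _ ℤ_[p] (cvS τ k j)) = tXi _ ℤ_[p] (cvS τ k j) := by
    have e1 := tX_mul_tXi (Λ := ℤ_[p]) _ _ (tor_cv (τ := τ) k j)
    have e2 := congrArg s e1
    rw [map_mul, map_one, sc] at e2
    linear_combination tXi _ ℤ_[p] (cvS τ k j) * e2 - s (tXi _ ℤ_[p] (cvS τ k j)) * e1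
  refine ⟨s, (mD τ h).equiv ℤ_[p], s1, sc, fun z => ?_, (mD τ h).hom_phi hodd, fun z => ?_,
    fun x => ?_⟩
  · have : (rhoA ℤ_[p] τ k).comp (kapS ℤ_[p] τ j) = s.toAlgHom.comp ((mD τ h).hom ℤ_[p]) := by
      refine tor_ext _ fun x => ?_
      change rhoA ℤ_[p] τ k (kapS ℤ_[p] τ j _) = s ((mD τ h).hom ℤ_[p] _)
      rw [rho_kap]
      have c0 : xS ℤ_[p] k (Sum.inl (k, 0) : Var I τ) = tX _ ℤ_[p] (cvS τ k k) :=
        xS_val (cvS τ k k)
      by_cases ha : x = (mD τ h).a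
      · have e : ((mD τ h).e (mD τ h).a).1 = Sum.inl (j, 1) := by simp [mD, eS_val, sw]
        rw [ha, MD.hom_X _ (MD.N_a _), mono_δ, map_neg, map_mul, map_mul, sc, si, s2,
          if_neg (by simp [mem_Fa, mem_Fb, e]), ← xS_val, e]
        change thS τ j k ℤ_[p] (Sum.inl (k, 1)) = _
        simp only [thS, gshift, Fin.reduceEq, if_false, if_true, c0]
        rw [xS_not (x := Sum.inl (k, 1)) (by simp)]
        ring
      by_cases hd : x = (mD τ h).d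
      · have e : ((mD τ h).e (mD τ h).d).1 = Sum.inl (j, 2) := by simp [mD, eS_val, sw]
        rw [hd, MD.hom_X _ (MD.N_d _), mono_δ, map_neg, map_mul, map_mul, sc, si, s2,
          if_neg (by simp [mem_Fa, mem_Fb, e]), ← xS_val, e]
        change thS τ j k ℤ_[p] (Sum.inl (k, 2)) = _
        simp only [thS, gshift, Fin.reduceEq, if_false, if_true, c0]
        rw [xS_not (x := Sum.inl (k, 2)) (by simp)]
        ring
      rw [MD.hom_Xo _ ha hd, s2]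
      have e : ((mD τ h).e x).1 = x.1 := by
        obtain ⟨⟨v, t⟩ | t, h1, h2⟩ := x
        · change sw j k (Sum.inl (v, t)) = _
          by_cases ht : t = 1 ∨ t = 2
          · have : v ≠ j ∧ v ≠ k := by
              rcases ht with rfl | rfl
              · exact ⟨by simpa using h1, by simpa [mD] using ha⟩
              · exact ⟨by simpa using h2, by simpa [mD] using hd⟩
            simp only [sw, if_pos ht, Equiv.swap_apply_of_ne_of_ne this.1 this.2]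
          · simp only [sw, if_neg ht]
        · rfl
      rw [← xS_val]
      split_ifs with hc
      · rw [e]
      · rw [mem_Fa, mem_Fb, e] at hc
        rw [e]
        clear e
        obtain ⟨⟨v, t⟩ | t, h1, h2⟩ := x
        · fin_cases t
          · simp [thS, gshift]
          · exact (hc (Or.inl ⟨v, by simpa using h1, Or.inl rfl⟩)).elim
          · exact (hc (Or.inl ⟨v, by simpa using h2, Or.inr rfl⟩)).elim
          · exact (hc (Or.inr ⟨v, rfl⟩)).elim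
        · rfl
    exact DFunLike.congr_fun this z
  · rw [mu_eq, mu_eq]
    exact (mD τ h).hom_psi hodd z
  · obtain ⟨r, r1, r2, r3⟩ := (mD τ h).hom_pd (Λ := ℤ_[p]) (cv := cvS τ k) (J := {j, k})
      (wt := fun y => M.wtv y.1) (wt' := fun y => M.wtv y.1) (fun v hv => by
        have : v ≠ j ∧ v ≠ k := by simpa using hv
        simp [mD, cv_inj, this]) (wt_eqS M h) x
    exact ⟨r, r1, r2, fun z => by simp only [mu_eq]; exact r3 z⟩

end

end Pool.Agent.MP_ea150c_mp.H6
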