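import Pool.Agent.MP_ea150c_mp.H49.SpecF

/-! The operators `Ψ_j` and the homotopies are approximated by filtered operators. -/

set_option linter.unusedSectionVars false

namespace Pool.Agent.MP_ea150c_mp.H6

open Pool.Agent.MP_ea150c_mp.H49 Pool.Agent.MP_ea150c_mp.H49.FrameData

noncomputable section

section gen
variable {O M N : Type} [CommRing O] [AddCommGroup M] [Module O M] [AddCommGroup N] [Module O N]

lemma mem_sm {c : O} {U : Submodule O M} {x : M} : x ∈ sm c U ↔ ∃ y ∈ U, c • y = x := Iff.rfl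

lemma sm_map {c : O} {U : Submodule O M} {V : Submodule O N} (T : M →ₗ[O] N)
    (h : ∀ x ∈ U, T x ∈ V) {x : M} (hx : x ∈ sm c U) : T x ∈ sm c V := by
  obtain ⟨y, hy, rfl⟩ := mem_sm.1 hx
  exact mem_sm.2 ⟨T y, h y hy, (map_smul T c y).symm⟩

/-- Elements approximated by the filtration `U` modulo `W`. -/
def Ap (c : O) (U W : ℕ → Submodule O M) : Submodule O M :=
  ⨅ S, (⨆ l, sm (c ^ nu l) (U l)) ⊔ W S

lemma mem_Ap {c : O} {U W : ℕ → Submodule O M} {x : M} :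
    x ∈ Ap c U W ↔ ∀ S, x ∈ (⨆ l, sm (c ^ nu l) (U l)) ⊔ W S := Submodule.mem_iInf _

lemma Ap_map {c : O} {U W : ℕ → Submodule O M} {U' W' : ℕ → Submodule O N} (T : M →ₗ[O] N)
    (e t : ℕ) (ht : ∀ l, nu (l + t) ≤ nu l + e) (h1 : ∀ l, ∀ x ∈ U l, T x ∈ U' (l + t))
    (h2 : ∀ S, ∀ x ∈ W S, T x ∈ W' S) {x : M} (hx : x ∈ Ap c U W) : c ^ e • T x ∈ Ap c U' W' := by
  refine mem_Ap.2 fun S => ?_
  have : (⨆ l, sm (c ^ nu l) (U l)) ⊔ W S ≤
      ((⨆ l, sm (c ^ nu l) (U' l)) ⊔ W' S).comap (c ^ e • T) := by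
    refine sup_le (iSup_le fun l y hy => ?_) fun y hy => ?_
    · obtain ⟨z, hz, rfl⟩ := mem_sm.1 hy
      refine Submodule.mem_sup_left (Submodule.mem_iSup_of_mem (l + t) ?_)
      obtain ⟨k, hk⟩ := Nat.exists_eq_add_of_le (ht l)
      refine mem_sm.2 ⟨c ^ k • T z, Submodule.smul_mem _ _ (h1 l z hz), ?_⟩
      rw [map_smul, LinearMap.smul_apply, smul_smul, smul_smul, ← pow_add, ← pow_add, hk]
    · exact Submodule.mem_sup_right (Submodule.smul_mem _ _ (h2 S y hy))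
  exact this (mem_Ap.1 hx S)

lemma span_map {s : Set M} {V : Submodule O N} (T : M →ₗ[O] N) {x : M}
    (hx : x ∈ Submodule.span O s) (h : ∀ y ∈ s, T y ∈ V) : T x ∈ V :=
  (Submodule.span_le (p := V.comap T)).2 h hx

lemma nu_succ (l : ℕ) : nu (l + 1) ≤ nu l + 1 := by unfold nu; omega

lemma nu_add (l t : ℕ) : nu (l + t) ≤ nu l + nu t := by unfold nu; omega

end gen

variable {p : ℕ} [Fact p.Prime] {A B Γ I ι : Type} {σ : I → Type}
  [CommRing A] [Algebra ℤ_[p] A] [AddCommGroup B] [Module A B] [Module ℤ_[p] B]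
  [IsScalarTower ℤ_[p] A B] [AddCommGroup Γ] [LinearOrder I] [Fintype I] [Fintype ι]
  [DecidableEq ι] [∀ j, Fintype (σ j)] [∀ j, DecidableEq (σ j)]

variable (p A B) in
/-- The map `b ↦ m_b`. -/
def mL : B →ₗ[ℤ_[p]] (A →ₗ[ℤ_[p]] B) where
  toFun b := mOp ℤ_[p] A b
  map_add' _ _ := by ext; simp [mOp]
  map_smul' c b := by
    ext r
    exact smul_comm r c b

lemma mL_apply (b : B) (r : A) : mL p A B b r = r • b := rfl

variable (A) in
/-- Composition on the left. -/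
def cL (Q : B →ₗ[ℤ_[p]] B) : (A →ₗ[ℤ_[p]] B) →ₗ[ℤ_[p]] (A →ₗ[ℤ_[p]] B) :=
  LinearMap.llcomp ℤ_[p] A B B Q

lemma cL_apply (Q : B →ₗ[ℤ_[p]] B) (P : A →ₗ[ℤ_[p]] B) : cL A Q P = Q ∘ₗ P := rfl

variable (p A B) in
/-- Evaluation at one. -/
def ev1 : (A →ₗ[ℤ_[p]] B) →ₗ[ℤ_[p]] B := LinearMap.applyₗ (1 : A)

variable (p A B) in
/-- The map `P ↦ P - m_(P 1)`. -/
def eL : (A →ₗ[ℤ_[p]] B) →ₗ[ℤ_[p]] (A →ₗ[ℤ_[p]] B) := LinearMap.id - mL p A B ∘ₗ ev1 p A B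

lemma eL_apply (P : A →ₗ[ℤ_[p]] B) : eL p A B P = P - mOp ℤ_[p] A (P 1) := rfl

lemma eL_mL (b : B) : eL p A B (mL p A B b) = 0 := by
  ext r
  simp [eL_apply, mL_apply, mOp]

variable (F : FrameData p A B Γ I ι σ)

/-- Operators of level at most `m`, multiplications included. -/
def Lp (J : Finset I) (w : Γ) (m : ℕ) : Submodule ℤ_[p] (A →ₗ[ℤ_[p]] B) :=
  F.L J w m ⊔ (F.Bl J w m).map (mL p A B)

variable {F} {J : Finset I} {w w' : Γ} {m S : ℕ} {j : I}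

lemma Lp_ind {P : A →ₗ[ℤ_[p]] B} (h : P ∈ Lp F J w m) :
    ∃ Q ∈ F.L J w m, ∃ b ∈ F.Bl J w m, P = Q + mL p A B b := by
  obtain ⟨Q, hQ, _, ⟨b, hb, rfl⟩, rfl⟩ := Submodule.mem_sup.1 h
  exact ⟨Q, hQ, b, hb, rfl⟩

section
variable (hL : F.AxL) (hC : F.AxC) (hT : F.AxT) (h1 : F.F1)

include hL h1 in
lemma mul_Lp {a : A} (ha : a ∈ F.Ar J w') {P : A →ₗ[ℤ_[p]] B} (h : P ∈ Lp F J w m) :
    mulL ℤ_[p] B a ∘ₗ P ∈ Lp F J (w + w') m := by
  obtain ⟨Q, hQ, b, hb, rfl⟩ := Lp_ind h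
  obtain ⟨c, hc, k⟩ := h1.2.2.2.2.2.1 J w w' m a Q ha hQ
  have e : mulL ℤ_[p] B a ∘ₗ (Q + mL p A B b) =
      (mulL ℤ_[p] B a ∘ₗ Q - mOp ℤ_[p] A c) + mL p A B (c + a • b) := by
    ext r
    simp [mulL, mL_apply, mOp, smul_smul, mul_comm]
    abel
  rw [e]
  refine Submodule.add_mem_sup k ⟨_, Submodule.add_mem _ hc ?_, rfl⟩
  rw [add_comm w]
  exact hL.smulL J _ _ m a b ha hb

include h1 in
lemma D_Lp (hj : j ∈ J) (i : σ j) {P : A →ₗ[ℤ_[p]] B} (h : P ∈ Lp F J (w + F.wt j i) m) :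
    F.D j i ∘ₗ P ∈ F.L J w (m + 1) := by
  obtain ⟨Q, hQ, b, hb, rfl⟩ := Lp_ind h
  rw [LinearMap.comp_add]
  exact Submodule.add_mem _ (h1.2.2.2.1 J w m j i Q hj hQ)
    (Submodule.subset_span ⟨m + 1, le_rfl, Word.base j i w m b hj hb⟩)

include hC in
lemma D_WC (hj : j ∈ J) (i : σ j) {P : A →ₗ[ℤ_[p]] B} (h : P ∈ F.WC J (w + F.wt j i) S) :
    F.D j i ∘ₗ P ∈ F.WC J w S := fun J' hJ w' r hr =>
  sm_map (F.D j i) (fun b hb => by
    have := hC.DH J' j i _ b (hJ hj) hb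
    rwa [show w + F.wt j i + w' - F.wt j i = w + w' by abel] at this) (h J' hJ w' r hr)

include hL in
lemma mL_WC {b : B} (h : b ∈ sm ((p : ℤ_[p]) ^ S) (F.Bh J w)) : mL p A B b ∈ F.WC J w S :=
  fun J' hJ w' r hr => sm_map (mulL ℤ_[p] B r) (fun c hc => by
    rw [add_comm]
    exact hL.smulH J' _ _ r c hr (hL.monoH J J' w hJ hc)) h

include hL in
lemma ev_WC {P : A →ₗ[ℤ_[p]] B} (h : P ∈ F.WC J w S) : P 1 ∈ sm ((p : ℤ_[p]) ^ S) (F.Bh J w) := by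
  have := h J le_rfl 0 1 (hL.one J)
  rwa [add_zero] at this

include hL hC in
lemma xpow (hj : j ∈ J) (i : σ j) (n : ℕ) : F.x j i ^ n ∈ F.Ar J (n • F.wt j i) := by
  induction n with
  | zero => simpa using hL.one J
  | succ n ih =>
    rw [pow_succ, succ_nsmul]
    exact hL.mul J _ _ _ _ ih (hC.xmem J j i hj)

include hL hT in
/-- Change of chart. -/
lemma chart (hj : j ∈ J) {k : I} (hk : k ∈ J) (i : σ k) : ∃ r : σ j → A,
    (∀ l, r l ∈ F.Ar J (F.wt j l - F.wt k i)) ∧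
    ∀ P : A →ₗ[ℤ_[p]] B, F.D k i ∘ₗ P = ∑ l, F.D j l ∘ₗ (mulL ℤ_[p] B (r l) ∘ₗ P) := by
  obtain ⟨r, k1, -, k2⟩ := hT.trans j k i
  refine ⟨r, fun l => hL.monoA _ J _ (by
    intro a ha
    rcases Finset.mem_insert.1 ha with rfl | ha
    · exact hj
    · rwa [Finset.mem_singleton.1 ha]) (k1 l), fun P => ?_⟩
  ext a
  rw [LinearMap.comp_apply, k2, LinearMap.sum_apply]
  rfl

include hC in
lemma ΨL_D (i : σ j) (P : A →ₗ[ℤ_[p]] B) : F.ΨL j (F.D j i ∘ₗ P) =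
    (p : ℤ_[p]) ^ 1 • cL A (F.D j i) (F.ΨL j (mulL ℤ_[p] B (F.x j i ^ (p - 1)) ∘ₗ P)) := by
  ext a
  rw [pow_one]
  exact hC.ΨD j i _

include hC in
lemma ΨL_mL (b : B) : F.ΨL j (mL p A B b) = mL p A B (F.Ψ j b) := by
  ext a
  exact hC.Ψφ j a b

include hC in
lemma Ψ_Ap (hj : j ∈ J) {b : B} (hb : b ∈ F.Bh J (p • w)) :
    F.Ψ j b ∈ Ap (p : ℤ_[p]) (F.Bl J w) fun S => sm ((p : ℤ_[p]) ^ S) (F.Bh J w) :=
  mem_Ap.2 fun S => by
    obtain ⟨c, k1, k2⟩ := hC.Ψapp J j w b S hj hb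
    have := Submodule.add_mem_sup k1 k2
    rwa [add_sub_cancel] at this

include hL in
lemma mL_Ap {b : B}
    (hb : b ∈ Ap (p : ℤ_[p]) (F.Bl J w) fun S => sm ((p : ℤ_[p]) ^ S) (F.Bh J w)) :
    mL p A B b ∈ Ap (p : ℤ_[p]) (Lp F J w) (F.WC J w) := by
  have := Ap_map (U' := Lp F J w) (W' := F.WC J w) (mL p A B) 0 0 (fun _ => le_rfl)
    (fun l x hx => Submodule.mem_sup_right ⟨x, hx, rfl⟩) (fun S x hx => mL_WC hL hx) hb
  rwa [pow_zero, one_smul] at this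

include hL hC in
lemma Lp_of_L (hj : j ∈ J)
    (h : ∀ P ∈ F.L J (p • w) m, F.ΨL j P ∈ Ap (p : ℤ_[p]) (F.L J w) (F.WC J w))
    {P : A →ₗ[ℤ_[p]] B} (hP : P ∈ Lp F J (p • w) m) :
    F.ΨL j P ∈ Ap (p : ℤ_[p]) (Lp F J w) (F.WC J w) := by
  obtain ⟨Q, hQ, b, hb, rfl⟩ := Lp_ind hP
  rw [map_add, ΨL_mL hC]
  refine Submodule.add_mem _ ?_ (mL_Ap hL (Ψ_Ap hC hj (hL.le J _ m hb)))
  have := Ap_map (U' := Lp F J w) (W' := F.WC J w) LinearMap.id 0 0 (fun _ => le_rfl)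
    (fun l x hx => Submodule.mem_sup_left hx) (fun S x hx => hx) (h Q hQ)
  rwa [pow_zero, one_smul] at this

lemma wt_eq (w u v : Γ) : w + v + (u - v) + (p - 1) • u = w + p • u := by
  have : p • u = u + (p - 1) • u := by
    conv_lhs => rw [← Nat.sub_add_cancel (Fact.out : p.Prime).one_le, succ_nsmul']
  rw [this]
  abel

include hL hC hT h1 in
lemma part1 (hj : j ∈ J) (m : ℕ) : ∀ w, ∀ P ∈ F.L J (p • w) m,
    F.ΨL j P ∈ Ap (p : ℤ_[p]) (F.L J w) (F.WC J w) := by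
  induction m with
  | zero =>
    intro w P hP
    rw [h1.2.1, Submodule.mem_bot] at hP
    rw [hP, map_zero]
    exact Submodule.zero_mem _
  | succ m ih =>
    intro w
    have key : ∀ k ∈ J, ∀ (i : σ k), ∀ Q ∈ Lp F J (p • w + F.wt k i) m,
        F.ΨL j (F.D k i ∘ₗ Q) ∈ Ap (p : ℤ_[p]) (F.L J w) (F.WC J w) := by
      intro k hk i Q hQ
      obtain ⟨r, k1, k2⟩ := chart hL hT hj hk i
      rw [k2, map_sum]
      refine Submodule.sum_mem _ fun l _ => ?_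
      rw [ΨL_D hC]
      have k3 := mul_Lp hL h1 (xpow hL hC hj l (p - 1)) (mul_Lp hL h1 (k1 l) hQ)
      rw [wt_eq, ← nsmul_add] at k3
      exact Ap_map _ 1 1 nu_succ (fun n x hx => D_Lp h1 hj l hx) (fun S x hx => D_WC hC hj l hx)
        (Lp_of_L hL hC hj (ih _) k3)
    refine fun P hP => span_map _ hP ?_
    rintro P ⟨l, hl, hw⟩
    generalize hu : p • w = u at hw
    cases hw with
    | base k i _ n b hk hb =>
      subst hu
      exact key k hk i _ (Submodule.mem_sup_right ⟨b, hL.lev J _ n m (by omega) hb, rfl⟩)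
    | step k i _ n Q hk hQ =>
      subst hu
      exact key k hk i _ (Submodule.mem_sup_left (Submodule.subset_span ⟨n, by omega, hQ⟩))

include h1 in
lemma Qw_Lp (s : List (Σ j, σ j)) (hs : ∀ a ∈ s, a.1 ∈ J) : ∀ w, ∀ P ∈
    Lp F J (w + (s.map fun a => F.wt a.1 a.2).sum) m, F.Qw s ∘ₗ P ∈ Lp F J w (m + s.length) := by
  induction s with
  | nil => intro w P hP; simpa [Qw] using hP
  | cons a s ih =>
    intro w P hP
    rw [List.map_cons, List.sum_cons, ← add_assoc] at hP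
    exact Submodule.mem_sup_left (D_Lp h1 (hs a (by simp)) a.2
      (ih (fun b hb => hs b (by simp [hb])) _ P hP))

include hC in
lemma Qw_WC (s : List (Σ j, σ j)) (hs : ∀ a ∈ s, a.1 ∈ J) : ∀ w, ∀ P ∈
    F.WC J (w + (s.map fun a => F.wt a.1 a.2).sum) S, F.Qw s ∘ₗ P ∈ F.WC J w S := by
  induction s with
  | nil => intro w P hP; simpa [Qw] using hP
  | cons a s ih =>
    intro w P hP
    rw [List.map_cons, List.sum_cons, ← add_assoc] at hP
    exact D_WC hC (hs a (by simp)) a.2 (ih (fun b hb => hs b (by simp [hb])) _ P hP)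

include hL hC hT h1 in
lemma part2 (hj : j ∈ J) {k : I} (hk : k ∈ J) {b : B} (hb : b ∈ F.Bh J (p • w)) :
    F.AppL J w (F.Hop j k b) := by
  intro S
  obtain ⟨N, hN, k1⟩ := hT.near j k S
  have hJ : ({j, k} : Finset I) ⊆ J := by
    intro a ha
    rcases Finset.mem_insert.1 ha with rfl | ha
    · exact hj
    · rwa [Finset.mem_singleton.1 ha]
  let T : (B →ₗ[ℤ_[p]] B) →ₗ[ℤ_[p]] (A →ₗ[ℤ_[p]] B) :=
    LinearMap.lcomp ℤ_[p] B (mOp ℤ_[p] A b ∘ₗ (F.φ k).toLinearMap)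
  have k2 : T N ∈ Ap (p : ℤ_[p]) (F.L J w) (F.WC J w) := by
    refine span_map _ hN ?_
    rintro _ ⟨s, hs, hs', a, ha, rfl⟩
    have e : T ((p : ℤ_[p]) ^ nu s.length • (F.Qw s ∘ₗ F.Ψ k ∘ₗ mulL ℤ_[p] B a)) =
        (p : ℤ_[p]) ^ nu s.length • cL A (F.Qw s) (mL p A B (F.Ψ k (a • b))) := by
      rw [map_smul]
      congr 1
      ext r
      change F.Qw s (F.Ψ k (a • F.φ k r • b)) = F.Qw s (r • F.Ψ k (a • b))
      rw [smul_comm a, hC.Ψφ]
    have k3 := hL.smulH J _ _ a b (hL.monoA _ J _ hJ ha) hb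
    rw [← nsmul_add, add_comm] at k3
    rw [e]
    refine Ap_map _ _ s.length (fun l => nu_add l _) (fun n x hx => ?_)
      (fun S x hx => Qw_WC hC s (fun a h => hJ (hs' a h)) _ x hx) (mL_Ap hL (Ψ_Ap hC hk k3))
    obtain ⟨c, s, rfl⟩ := List.exists_cons_of_ne_nil hs
    rw [List.map_cons, List.sum_cons, ← add_assoc] at hx
    exact D_Lp h1 (hJ (hs' c (by simp))) c.2
      (Qw_Lp h1 s (fun b hb => hJ (hs' b (by simp [hb]))) _ x hx)
  have k4 : F.Hop j k b - T N ∈ F.WC J w S := fun J' hJ' w' r hr => by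
    refine k1 J' (hJ' hj) (hJ' hk) _ (F.φ k r • b) ?_
    rw [nsmul_add, add_comm]
    exact hL.smulH J' _ _ _ b (hC.φmem J' k w' r (hJ' hk) hr) (hL.monoH J J' _ hJ' hb)
  have := Submodule.add_mem _ (mem_Ap.1 k2 S) (Submodule.mem_sup_right k4)
  rwa [add_sub_cancel] at this

include hL hC hT h1 in
lemma part3 (hj : j ∈ J) {z : (A →ₗ[ℤ_[p]] B) × (ι → B)} (hz : z ∈ F.X J m) :
    F.ΨLt j z ∈ Ap (p : ℤ_[p]) (F.X J) (F.WCt J) := by
  refine span_map _ hz ?_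
  rintro _ (⟨k, hk, i, n, -, -, P, hP, rfl⟩ | ⟨i, n, -, -, P, hP, rfl⟩)
  · obtain ⟨r, k1, k2⟩ := chart hL hT hj hk i
    let T : σ j → ((A →ₗ[ℤ_[p]] B) →ₗ[ℤ_[p]] (A →ₗ[ℤ_[p]] B) × (ι → B)) := fun l =>
      LinearMap.inl ℤ_[p] _ _ ∘ₗ cL A (F.D j l) ∘ₗ eL p A B
    have e : F.ΨLt j (F.D k i ∘ₗ (P - mOp ℤ_[p] A (P 1)), 0) = ∑ l, (p : ℤ_[p]) ^ 1 • T l (F.ΨL j
        (mulL ℤ_[p] B (F.x j l ^ (p - 1)) ∘ₗ (mulL ℤ_[p] B (r l) ∘ₗ P))) := by
      refine Prod.ext ?_ ?_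
      · change F.ΨL j (F.D k i ∘ₗ (P - mOp ℤ_[p] A (P 1))) = _
        rw [k2, map_sum, Prod.fst_sum]
        refine Finset.sum_congr rfl fun l _ => ?_
        rw [ΨL_D hC]
        change _ = (p : ℤ_[p]) ^ 1 • cL A (F.D j l) (eL p A B _)
        congr 2
        ext a
        change F.Ψ j (F.x j l ^ (p - 1) • r l • (P (F.φ j a) - F.φ j a • P 1)) =
          F.Ψ j (F.x j l ^ (p - 1) • r l • P (F.φ j a)) -
            a • F.Ψ j (F.x j l ^ (p - 1) • r l • P (F.φ j 1))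
        rw [map_one (F.φ j), ← hC.Ψφ, ← map_sub, smul_sub, smul_sub, smul_comm (r l) (F.φ j a),
          smul_comm _ (F.φ j a)]
      · rw [Prod.snd_sum]
        change ((p : ℤ_[p]) • (F.Ψ j).compLeft ι) 0 = ∑ l, (p : ℤ_[p]) ^ 1 • (0 : ι → B)
        simp
    rw [e]
    refine Submodule.sum_mem _ fun l _ => ?_
    have k0 : P ∈ Lp F J (0 + F.wt k i) n := by rw [zero_add]; exact Submodule.mem_sup_left hP
    have k3 := mul_Lp hL h1 (xpow hL hC hj l (p - 1)) (mul_Lp hL h1 (k1 l) k0)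
    rw [wt_eq, zero_add] at k3
    refine Ap_map _ 1 1 nu_succ (fun n x hx => ?_) (fun S x hx => ?_)
      (Lp_of_L hL hC hj (part1 hL hC hT h1 hj n _) k3)
    · obtain ⟨Q, hQ, b, -, rfl⟩ := Lp_ind hx
      change LinearMap.inl ℤ_[p] _ _ (cL A (F.D j l) (eL p A B _)) ∈ _
      rw [map_add, eL_mL, add_zero]
      rcases Nat.eq_zero_or_pos n with rfl | hn
      · rw [h1.2.1, Submodule.mem_bot] at hQ
        rw [hQ, map_zero, map_zero, map_zero]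
        exact Submodule.zero_mem _
      · exact Submodule.subset_span (Or.inl ⟨j, hj, l, n, hn, le_rfl, Q, hQ, rfl⟩)
    · refine ⟨D_WC hC hj l ?_, fun _ _ => Submodule.zero_mem _⟩
      rw [zero_add]
      exact Submodule.sub_mem _ hx (mL_WC hL (ev_WC hL hx))
  · let T : (A →ₗ[ℤ_[p]] B) →ₗ[ℤ_[p]] (A →ₗ[ℤ_[p]] B) × (ι → B) :=
      (-cL A ((F.th i).restrictScalars ℤ_[p])).prod
        (LinearMap.single ℤ_[p] (fun _ => B) i ∘ₗ ev1 p A B)
    have e : F.ΨLt j (-((F.th i).restrictScalars ℤ_[p] ∘ₗ P), Pi.single i (P 1)) =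
        (p : ℤ_[p]) ^ 1 • T (F.ΨL j P) := by
      rw [pow_one]
      refine Prod.ext ?_ ?_
      · ext a
        change F.Ψ j (-F.th i (P (F.φ j a))) = (p : ℤ_[p]) • -F.th i (F.Ψ j (P (F.φ j a)))
        rw [map_neg, hC.Ψth, smul_neg]
      · funext s
        change (p : ℤ_[p]) • F.Ψ j ((Pi.single i (P 1) : ι → B) s) =
          (p : ℤ_[p]) • (Pi.single i (F.Ψ j (P (F.φ j 1))) : ι → B) s
        rw [map_one (F.φ j)]
        by_cases h : s = i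
        · subst h; simp
        · simp [h]
    rw [e]
    refine Ap_map _ 1 1 nu_succ (fun n x hx => ?_) (fun S x hx => ?_)
      (part1 hL hC hT h1 hj n 0 P (by rwa [smul_zero]))
    · rcases Nat.eq_zero_or_pos n with rfl | hn
      · rw [h1.2.1, Submodule.mem_bot] at hx
        rw [hx, map_zero]
        exact Submodule.zero_mem _
      · exact Submodule.subset_span (Or.inr ⟨i, n, hn, le_rfl, x, hx, rfl⟩)
    · refine ⟨Submodule.neg_mem _ fun J' hJ w' r hr => sm_map ((F.th i).restrictScalars ℤ_[p])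
        (fun b hb => hL.thH i J' _ b hb) (hx J' hJ w' r hr), fun s _ => ?_⟩
      change (Pi.single i (x 1) : ι → B) s ∈ _
      by_cases h : s = i
      · subst h
        rw [Pi.single_eq_same]
        exact ev_WC hL hx
      · rw [Pi.single_eq_of_ne h]
        exact Submodule.zero_mem _

end

theorem rowF3a : RowF3a := by
  intro p _ A B Γ I ι σ _ _ _ _ _ _ _ _ _ _ _ _ _ F hL hC hT h1
  exact ⟨fun J j w m P hj hP => mem_Ap.1 (part1 hL hC hT h1 hj m w P hP),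
    fun J j k w b hj hk hb => part2 hL hC hT h1 hj hk hb,
    fun J j m z hj hz => mem_Ap.1 (part3 hL hC hT h1 hj hz)⟩

end

end Pool.Agent.MP_ea150c_mp.H6
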